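import Pool.Agent.Work.MP_ce2d68_du.Interface
import Pool.Agent.Work.MP_ce2d68_st_helper79.FAR

set_option autoImplicit false

namespace Pool.Agent.Work.MP_ce2d68_du.h42

open Pool.Agent.Work.MP_ce2d68_st

theorem p_FARD : Stmt_FARD := by
  intro θ δ hθ hθπ hδ
  have hpi : 0 < Real.pi := Real.pi_pos
  set σ : ℝ := min (1 / 2) (Real.sin (min θ (Real.pi / 2))) with hσdef
  have hm0 : 0 < min θ (Real.pi / 2) := lt_min hθ (by positivity)
  have hm1 : min θ (Real.pi / 2) ≤ Real.pi / 2 := min_le_right _ _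
  have hsin : 0 < Real.sin (min θ (Real.pi / 2)) :=
    Real.sin_pos_of_pos_of_lt_pi hm0 (by linarith)
  have hσ : 0 < σ := lt_min (by norm_num) hsin
  have hσ2 : σ ≤ 1 / 2 := min_le_left _ _
  have hσs : σ ≤ Real.sin (min θ (Real.pi / 2)) := min_le_right _ _
  set K : ℝ := max ((1 + (1 + δ) * (-Real.log σ)) / δ) (Real.log (10 / σ)) with hK
  set b : ℝ := Real.exp K with hb
  have hb0 : 0 < b := Real.exp_pos _
  have hlb : Real.log b = K := by rw [hb, Real.log_exp]
  have hb10 : 10 / σ ≤ b := by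
    rw [← Real.exp_log (show (0 : ℝ) < 10 / σ by positivity), hb]
    exact Real.exp_le_exp.2 (le_max_right _ _)
  have hR10 : 10 ≤ σ * b := by
    rw [div_le_iff₀ hσ] at hb10
    linarith
  have hb1 : 1 ≤ b := by nlinarith
  refine ⟨b, σ * b, hR10, fun z hz => ?_, ?_⟩
  · exact Pool.Agent.Work.MP_ce2d68_st.helper79.disc_sector θ σ b hθ hσ hσ2 hσs hb0 z hz
  · have h1 := Pool.Agent.Work.MP_ce2d68_st.helper79.ca_max_le b (σ * b) hb1 (by positivity)
      (by nlinarith)
    refine h1.trans ?_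
    rw [Real.log_mul hσ.ne' hb0.ne', hlb]
    have h2 : 1 / b ≤ 1 := by
      rw [div_le_iff₀ hb0]; linarith
    have h3 : (1 + (1 + δ) * (-Real.log σ)) / δ ≤ K := le_max_left _ _
    rw [div_le_iff₀ hδ] at h3
    nlinarith

end Pool.Agent.Work.MP_ce2d68_du.h42
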