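import Pool.Agent.Work.MP_ce2d68_du.Interface

set_option autoImplicit false

open scoped ComplexConjugate

namespace Pool.Agent.Work.MP_ce2d68_du.h42

open Pool.Agent.Work.MP_ce2d68_st

theorem p_GRID : Stmt_GRID := by
  classical
  intro θ r₁ R₁ τ hθ hθπ hr hr1 hR hτ
  set S : Set ℂ := {z | |z.arg| ≤ θ ∧ r₁ ≤ ‖z‖ ∧ ‖z‖ ≤ R₁} with hS
  have htb : TotallyBounded S := by
    refine TotallyBounded.subset ?_ (isCompact_closedBall (0 : ℂ) R₁).totallyBounded
    intro z hz
    rw [Metric.mem_closedBall, dist_zero_right]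
    exact hz.2.2
  obtain ⟨t, htS, htf, hcov⟩ := Metric.finite_approx_of_totallyBounded htb τ hτ
  have hconj : ∀ a ∈ S, conj a ∈ S := by
    intro a ha
    refine ⟨?_, ?_, ?_⟩
    · have h1 : |(conj a).arg| = |a.arg| := by
        rw [Complex.arg_conj]
        split_ifs with h
        · rw [h]
        · rw [abs_neg]
      rw [h1]; exact ha.1
    · rw [Complex.norm_conj]; exact ha.2.1
    · rw [Complex.norm_conj]; exact ha.2.2
  set G : Finset ℂ := insert 1 (htf.toFinset ∪ htf.toFinset.image (fun z => conj z)) with hG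
  have h1S : (1 : ℂ) ∈ S := by
    refine ⟨?_, ?_, ?_⟩
    · simp [hθ.le]
    · simpa using hr1.le
    · simpa using hR.le
  refine ⟨G, by simp [hG], ?_, ?_, ?_⟩
  · intro a ha
    rw [hG, Finset.mem_insert, Finset.mem_union, Finset.mem_image] at ha ⊢
    rcases ha with rfl | ha | ⟨c, hc, rfl⟩
    · left; simp
    · right; right; exact ⟨a, ha, rfl⟩
    · right; left; rwa [Complex.conj_conj]
  · intro a ha
    rw [hG, Finset.mem_insert, Finset.mem_union, Finset.mem_image] at ha
    rcases ha with rfl | ha | ⟨c, hc, rfl⟩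
    · exact h1S
    · exact htS (htf.mem_toFinset.1 ha)
    · exact hconj c (htS (htf.mem_toFinset.1 hc))
  · intro z h1 h2 h3
    have hz : z ∈ S := ⟨h1, h2, h3⟩
    have := hcov hz
    rw [Set.mem_iUnion₂] at this
    obtain ⟨a, ha, hza⟩ := this
    refine ⟨a, ?_, ?_⟩
    · rw [hG, Finset.mem_insert, Finset.mem_union]
      exact Or.inr (Or.inl (htf.mem_toFinset.2 ha))
    · rw [Metric.mem_ball, dist_eq_norm] at hza
      exact hza.le

end Pool.Agent.Work.MP_ce2d68_du.h42
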