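import Pool.Agent.Work.MP_ce2d68_du.Interface

set_option autoImplicit false

open Polynomial
open scoped ComplexConjugate

namespace Pool.Agent.Work.MP_ce2d68_du.h42

open Pool.Agent.Work.MP_ce2d68_st

lemma ci_poly (p : ℂ[X]) (a : ℂ) (t : ℝ) :
    CircleIntegrable (fun z => Real.log ‖p.eval z‖) a t := by
  refine MeromorphicOn.circleIntegrable_log_norm (f := fun z => p.eval z) ?_
  intro z _
  exact (p.differentiable.analyticAt z).meromorphicAt

lemma ca_mul (p q : ℂ[X]) (hp : p ≠ 0) (hq : q ≠ 0) (a : ℂ) (t : ℝ) (ht : 0 < t) :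
    Real.circleAverage (fun z => Real.log ‖(p * q).eval z‖) a t =
      Real.circleAverage (fun z => Real.log ‖p.eval z‖) a t +
      Real.circleAverage (fun z => Real.log ‖q.eval z‖) a t := by
  rw [← Real.circleAverage_fun_add (ci_poly p a t) (ci_poly q a t)]
  refine Real.circleAverage_congr_codiscreteWithin ?_ ht.ne'
  have hfin : (((p * q).roots.toFinset : Finset ℂ) : Set ℂ).Finite := Finset.finite_toSet _
  have h := compl_finite_mem_codiscreteWithin hfin (s := Metric.sphere a |t|)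
  filter_upwards [h] with z hz
  have hpq : (p * q).eval z ≠ 0 := by
    intro h0
    apply hz
    simp only [Finset.mem_coe, Multiset.mem_toFinset]
    exact (mem_roots (mul_ne_zero hp hq)).2 h0
  rw [eval_mul] at hpq ⊢
  rw [norm_mul, Real.log_mul]
  · exact norm_ne_zero_iff.2 (left_ne_zero_of_mul hpq)
  · exact norm_ne_zero_iff.2 (right_ne_zero_of_mul hpq)

lemma ca_lin (x a : ℂ) (t : ℝ) (ht : 0 < t) :
    Real.circleAverage (fun z => Real.log ‖(X - C x : ℂ[X]).eval z‖) a t =
      Real.log (max ‖x - a‖ t) := by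
  have h1 : (fun z => Real.log ‖(X - C x : ℂ[X]).eval z‖) = fun z => Real.log ‖z - x‖ := by
    funext z; simp
  rw [h1, circleAverage_log_norm_sub_const_eq_log_radius_add_posLog ht.ne',
    Real.posLog_eq_log_max_one (by positivity), ← Real.log_mul ht.ne' (by positivity)]
  congr 1
  rw [mul_max_of_nonneg _ _ ht.le, mul_one, ← mul_assoc, mul_inv_cancel₀ ht.ne', one_mul,
    max_comm, norm_sub_rev]

lemma ca_C (c : ℂ) (a : ℂ) (t : ℝ) :
    Real.circleAverage (fun z => Real.log ‖(C c : ℂ[X]).eval z‖) a t = Real.log ‖c‖ := by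
  have h1 : (fun z => Real.log ‖(C c : ℂ[X]).eval z‖) = fun _ => Real.log ‖c‖ := by
    funext z; simp
  rw [h1, Real.circleAverage_const]

lemma ca_prod (s : Finset ℂ) (a : ℂ) (t : ℝ) (ht : 0 < t) :
    Real.circleAverage (fun z => Real.log ‖(∏ x ∈ s, (X - C x) : ℂ[X]).eval z‖) a t =
      ∑ x ∈ s, Real.log (max ‖x - a‖ t) := by
  classical
  induction s using Finset.induction_on with
  | empty =>
    rw [Finset.prod_empty, Finset.sum_empty, ← C_1, ca_C]
    simp
  | insert x s hx ih =>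
    rw [Finset.prod_insert hx, Finset.sum_insert hx, ca_mul _ _ (X_sub_C_ne_zero x)
      (Finset.prod_ne_zero_iff.2 fun y _ => X_sub_C_ne_zero y) a t ht, ih, ca_lin x a t ht]

lemma ca_IP (hB : Stmt_NBAS) (P : ℤ[X]) (hP : IP P) (a : ℂ) (t : ℝ) (ht : 0 < t) :
    Real.circleAverage (fun z => Real.log ‖ev P z‖) a t = Lt t P a := by
  obtain ⟨h1, -⟩ := hB P hP
  have hlc : ((P.leadingCoeff : ℤ) : ℂ) ≠ 0 := by
    exact_mod_cast leadingCoeff_ne_zero.2 hP.1.ne_zero
  unfold ev
  rw [h1, ca_mul _ _ (C_ne_zero.2 hlc) (Finset.prod_ne_zero_iff.2 fun y _ => X_sub_C_ne_zero y)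
    a t ht, ca_C, ca_prod _ a t ht, Lt, llc]
  congr 2
  exact Complex.norm_intCast _

lemma ev_mul' (P Q : ℤ[X]) (z : ℂ) : ev (P * Q) z = ev P z * ev Q z := by
  unfold ev cp
  rw [Polynomial.map_mul, eval_mul]

lemma cp_ne {P : ℤ[X]} (h : P ≠ 0) : cp P ≠ 0 := by
  unfold cp
  rw [Ne, Polynomial.map_eq_zero_iff]
  · exact h
  · exact (Int.castRingHom ℂ).injective_int

/-- a nonzero integer polynomial of degree 0 -/
lemma ev_deg0 {P : ℤ[X]} (h0 : P ≠ 0) (hd : P.natDegree = 0) :
    ∃ c : ℤ, 1 ≤ |(c : ℝ)| ∧ ∀ z, ev P z = c := by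
  rw [natDegree_eq_zero] at hd
  obtain ⟨c, rfl⟩ := hd
  refine ⟨c, ?_, fun z => by simp [ev, cp]⟩
  have hc : c ≠ 0 := by
    rintro rfl; exact h0 C_0
  exact_mod_cast Int.one_le_abs hc

theorem p_JENL (hB : Stmt_NBAS) : Stmt_JENL := by
  intro Q
  refine WfDvdMonoid.induction_on_irreducible (motive := fun Q : ℤ[X] => Q ≠ 0 →
    ∃ Ls : List ℤ[X], (∀ P ∈ Ls, IP P) ∧ sd Ls = Q.natDegree ∧
    (∀ z, ‖ev Ls.prod z‖ ≤ ‖ev Q z‖) ∧
    ∀ (a : ℂ) (t : ℝ), 0 < t →
      (Ls.map fun P => Lt t P a).sum ≤ Real.circleAverage (fun z => Real.log ‖ev Q z‖) a t)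
    Q (fun h => absurd rfl h) ?_ ?_
  · intro u hu h0
    obtain ⟨c, hc, hcz⟩ := ev_deg0 h0 (natDegree_eq_zero_of_isUnit hu)
    refine ⟨[], by simp, by simp [sd, natDegree_eq_zero_of_isUnit hu], fun z => ?_, ?_⟩
    · rw [hcz z, Complex.norm_intCast]
      simpa [ev, cp] using hc
    · intro a t ht
      have h1 : (fun z => Real.log ‖ev u z‖) = fun _ => Real.log |(c : ℝ)| := by
        funext z; rw [hcz z, Complex.norm_intCast]
      rw [h1, Real.circleAverage_const]
      simpa using Real.log_nonneg hc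
  · intro b i hb hi ih hib
    obtain ⟨Ls, h1, h2, h3, h4⟩ := ih hb
    have hi0 : i ≠ 0 := hi.ne_zero
    have hav : ∀ (a : ℂ) (t : ℝ), 0 < t →
        Real.circleAverage (fun z => Real.log ‖ev (i * b) z‖) a t =
          Real.circleAverage (fun z => Real.log ‖ev i z‖) a t +
          Real.circleAverage (fun z => Real.log ‖ev b z‖) a t := by
      intro a t ht
      have := ca_mul (cp i) (cp b) (cp_ne hi0) (cp_ne hb) a t ht
      have hm : cp i * cp b = cp (i * b) := by
        unfold cp; rw [Polynomial.map_mul]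
      rw [hm] at this
      exact this
    rcases Nat.eq_zero_or_pos i.natDegree with hd | hd
    · obtain ⟨c, hc, hcz⟩ := ev_deg0 hi0 hd
      refine ⟨Ls, h1, by rw [h2, natDegree_mul hi0 hb, hd, zero_add], fun z => ?_, ?_⟩
      · rw [ev_mul', norm_mul, hcz z, Complex.norm_intCast]
        have := h3 z
        nlinarith [norm_nonneg (ev b z)]
      · intro a t ht
        rw [hav a t ht]
        have h5 : (fun z => Real.log ‖ev i z‖) = fun _ => Real.log |(c : ℝ)| := by
          funext z; rw [hcz z, Complex.norm_intCast]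
        rw [h5, Real.circleAverage_const]
        have := h4 a t ht
        have := Real.log_nonneg hc
        linarith
    · refine ⟨i :: Ls, ?_, ?_, fun z => ?_, ?_⟩
      · intro P hP
        rcases List.mem_cons.1 hP with rfl | hP
        · exact ⟨hi, hd⟩
        · exact h1 P hP
      · rw [natDegree_mul hi0 hb, ← h2]
        simp [sd]
      · rw [List.prod_cons, ev_mul', ev_mul', norm_mul, norm_mul]
        exact mul_le_mul_of_nonneg_left (h3 z) (norm_nonneg _)
      · intro a t ht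
        rw [hav a t ht, List.map_cons, List.sum_cons, ca_IP hB i ⟨hi, hd⟩ a t ht]
        have := h4 a t ht
        linarith

end Pool.Agent.Work.MP_ce2d68_du.h42
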