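import Pool.Agent.Work.MP_ce2d68_du.Interface

set_option autoImplicit false

open Polynomial
open scoped ComplexConjugate

namespace Pool.Agent.Work.MP_ce2d68_du.h42

open Pool.Agent.Work.MP_ce2d68_st

lemma reflect_eval (P : ℂ[X]) (M : ℕ) (hP : P.natDegree ≤ M) (x : ℂ) (hx : x ≠ 0) :
    (P.reflect M).eval x⁻¹ * x ^ M = P.eval x := by
  let _ : Invertible x := invertibleOfNonzero hx
  have := Polynomial.eval₂_reflect_mul_pow (RingHom.id ℂ) x M P hP
  rw [invOf_eq_inv] at this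
  simpa [Polynomial.eval₂_eq_eval_map] using this

theorem p_BW : Stmt_BW := by
  intro Q M c ρ B hQ hρ hB z hz
  have hρc : (ρ : ℂ) ≠ 0 := by exact_mod_cast hρ.ne'
  set P : ℂ[X] := Q.comp (C c + C (ρ : ℂ) * X) with hP
  have hPe : ∀ w : ℂ, P.eval w = Q.eval (c + ρ * w) := by
    intro w
    rw [hP, eval_comp]
    simp
  have hPd : P.natDegree ≤ M := by
    rw [hP]
    refine (natDegree_comp_le).trans ?_
    have h1 : (C c + C (ρ : ℂ) * X : ℂ[X]).natDegree ≤ 1 := by
      refine (natDegree_add_le _ _).trans (max_le ?_ ?_)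
      · simp
      · exact (natDegree_C_mul_le _ _).trans (by simp)
    calc Q.natDegree * (C c + C (ρ : ℂ) * X : ℂ[X]).natDegree ≤ Q.natDegree * 1 :=
          Nat.mul_le_mul_left _ h1
      _ ≤ M := by omega
  have hbd : ∀ w ∈ frontier (Metric.ball (0 : ℂ) 1), ‖(P.reflect M).eval w‖ ≤ B := by
    intro w hw
    rw [frontier_ball (0 : ℂ) one_ne_zero, mem_sphere_zero_iff_norm] at hw
    have hw0 : w ≠ 0 := by
      intro h; rw [h, norm_zero] at hw; norm_num at hw
    have h1 := reflect_eval P M hPd w⁻¹ (inv_ne_zero hw0)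
    rw [inv_inv] at h1
    have h2 : ‖(P.reflect M).eval w‖ = ‖P.eval w⁻¹‖ := by
      rw [← h1, norm_mul, norm_pow, norm_inv, hw]; simp
    rw [h2, hPe]
    refine hB _ ?_
    have h3 : c + (ρ : ℂ) * w⁻¹ - c = (ρ : ℂ) * w⁻¹ := by ring
    rw [h3, norm_mul, norm_inv, hw, Complex.norm_real, Real.norm_eq_abs, abs_of_pos hρ]
    simp
  have hz0 : 0 < ‖z - c‖ := lt_of_lt_of_le hρ hz
  have hzc : z - c ≠ 0 := norm_pos_iff.1 hz0
  set x : ℂ := (z - c) / ρ with hx
  have hx0 : x ≠ 0 := div_ne_zero hzc hρc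
  have hxn : ‖x‖ = ‖z - c‖ / ρ := by
    rw [hx, norm_div, Complex.norm_real, Real.norm_eq_abs, abs_of_pos hρ]
  have hcl : x⁻¹ ∈ closure (Metric.ball (0 : ℂ) 1) := by
    rw [closure_ball (0 : ℂ) one_ne_zero, mem_closedBall_zero_iff, norm_inv, hxn]
    rw [inv_div, div_le_one hz0]
    exact hz
  have hdiff : DiffContOnCl ℂ (fun w => (P.reflect M).eval w) (Metric.ball (0 : ℂ) 1) :=
    ((P.reflect M).differentiable).diffContOnCl
  have hmax := Complex.norm_le_of_forall_mem_frontier_norm_le Metric.isBounded_ball hdiff hbd hcl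
  have hQz : Q.eval z = P.eval x := by
    rw [hPe, hx]
    congr 1
    field_simp
    ring
  rw [hQz, ← reflect_eval P M hPd x hx0, norm_mul, norm_pow, hxn]
  exact mul_le_mul_of_nonneg_right hmax (by positivity)

end Pool.Agent.Work.MP_ce2d68_du.h42
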