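import Pool.Agent.Work.MP_ce2d68_du.Interface
import Pool.Agent.Work.MP_ce2d68_st_helper23.DIG

set_option autoImplicit false

open Polynomial Filter Topology
open scoped ComplexConjugate

namespace Pool.Agent.Work.MP_ce2d68_du.h42

open Pool.Agent.Work.MP_ce2d68_st Pool.Agent.Work.MP_ce2d68_st.helper23

theorem p_NDIG (hB : Stmt_NBAS) (hCv : Stmt_NCOV) : Stmt_NDIG := by
  classical
  intro K hK hKc P hP
  obtain ⟨hprod, hcard, hconj, -, -, -⟩ := hB P hP
  obtain ⟨c₁, hc₁, hcov⟩ := hCv P hP
  set R : Finset ℂ := rts P with hR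
  set L : ℂ → ℂ[X] := fun a => Lagrange.basis R id a with hL
  obtain ⟨c₂, hc₂, hLb⟩ := bound_on K hK R L
  have hinj : Set.InjOn (id : ℂ → ℂ) (R : Set ℂ) := Set.injOn_id _
  have hdg : 0 < P.natDegree := hP.2
  have hdgR : (P.natDegree : ℝ) ≠ 0 := by exact_mod_cast hdg.ne'
  have hRne : R.Nonempty := by
    rw [← Finset.card_pos, hcard]; exact hdg
  refine ⟨c₁ * c₂ * P.natDegree, by positivity, ?_⟩
  intro W T D M S g hT hT0 hS hMD hg f hf
  obtain ⟨a₀, ha₀⟩ := hRne
  have hdgD : P.natDegree ≤ D := le_trans (Nat.le_add_left _ _) (hg a₀ ha₀).1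
  set A : ℝ := (∑ a ∈ R, S a - M * llc P) / P.natDegree with hA
  have hsym : Sym (fun a => A - S a) := fun a => by simp only [hS a]
  have hsum0 : ∑ a ∈ R, (A - S a) = -(M * llc P) := by
    rw [Finset.sum_sub_distrib, Finset.sum_const, hcard, nsmul_eq_mul, hA]
    field_simp
    ring
  obtain ⟨u, hu, htau⟩ := hcov M (fun a => A - S a) hsym hsum0 f
  set tau : ℂ → ℂ := fun a => rv f a - 4 * ev u a with htaudef
  have htc : ∀ a, tau (conj a) = conj (tau a) := by
    intro a
    simp only [htaudef, rv_conj, ev_conj, map_sub, map_mul, Complex.conj_ofNat]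
  set hC : ℂ[X] := ∑ a ∈ R, C (tau a) * (L a * g a) with hhC
  have hLdeg : ∀ a ∈ R, (L a).natDegree = P.natDegree - 1 := by
    intro a ha
    rw [hL]
    have := Lagrange.degree_basis hinj ha
    rw [← hcard]
    exact Polynomial.natDegree_eq_of_degree_eq_some this
  have hCdeg : hC.degree < (D : WithBot ℕ) := by
    rw [hhC, ← Polynomial.mem_degreeLT]
    apply Submodule.sum_mem
    intro a ha
    rw [Polynomial.mem_degreeLT]
    refine lt_of_le_of_lt Polynomial.degree_le_natDegree ?_
    have h1 : (C (tau a) * (L a * g a)).natDegree ≤ (L a).natDegree + (g a).natDegree :=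
      (Polynomial.natDegree_C_mul_le _ _).trans Polynomial.natDegree_mul_le
    have h2 := hLdeg a ha
    have h3 := (hg a ha).1
    have h4 : (C (tau a) * (L a * g a)).natDegree < D := by omega
    exact_mod_cast h4
  set h : ℝ[X] := reP D hC with hh
  have hhdeg : h.degree < (D : WithBot ℕ) := reP_degree D hC hCdeg
  have hLe : ∀ a ∈ R, ∀ b ∈ R, (L a).eval b = if a = b then 1 else 0 := by
    intro a ha b hb
    by_cases hab : a = b
    · subst hab
      rw [if_pos rfl]
      exact Lagrange.eval_basis_self hinj ha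
    · rw [if_neg hab]
      exact Lagrange.eval_basis_of_ne (v := id) hab hb
  have hCe : ∀ b ∈ R, hC.eval b = tau b := by
    intro b hb
    rw [hhC, Polynomial.eval_finsetSum, Finset.sum_eq_single b]
    · rw [Polynomial.eval_mul, Polynomial.eval_mul, Polynomial.eval_C, hLe b hb b hb,
        (hg b hb).2.1]
      simp
    · intro a ha hab
      rw [Polynomial.eval_mul, Polynomial.eval_mul, hLe a ha b hb, if_neg hab]
      simp
    · intro hb'; exact absurd hb hb'
  have hhe : ∀ b ∈ R, rv h b = tau b := by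
    intro b hb
    rw [hh, reP_eval D hC hCdeg, hCe b hb, hCe (conj b) (hconj b hb), htc, Complex.conj_conj]
    ring
  -- divisibility
  set uR : ℝ[X] := u.map (Int.castRingHom ℝ) with huR
  set QR : ℝ[X] := P.map (Int.castRingHom ℝ) with hQR
  have hQRdeg : QR.natDegree = P.natDegree := by
    rw [hQR, Polynomial.natDegree_map_eq_of_injective (Int.castRingHom ℝ).injective_int]
  have hQR0 : QR ≠ 0 := by
    rw [hQR, Ne, Polynomial.map_eq_zero_iff (Int.castRingHom ℝ).injective_int]
    exact hP.1.ne_zero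
  have hlc : ((P.leadingCoeff : ℤ) : ℂ) ≠ 0 := by
    exact_mod_cast leadingCoeff_ne_zero.2 hP.1.ne_zero
  have hdvd : QR ∣ f - 4 * uR - h := by
    rw [← Polynomial.map_dvd_map' (algebraMap ℝ ℂ), hQR,
      map_int_real, hprod, IsUnit.mul_left_dvd (isUnit_C.2 (isUnit_iff_ne_zero.2 hlc))]
    apply Finset.prod_dvd_of_coprime
    · intro a _ b _ hab
      exact Polynomial.pairwise_coprime_X_sub_C (s := id) (fun _ _ h => h) hab
    · intro b hb
      rw [Polynomial.dvd_iff_isRoot, Polynomial.IsRoot.def]
      have e1 : (((f - 4 * uR - h).map (algebraMap ℝ ℂ))).eval b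
          = rv f b - 4 * ev u b - rv h b := by
        have e0 : (4 * uR : ℝ[X]).map (algebraMap ℝ ℂ) = C 4 * cp u := by
          have h2 : (4 * uR : ℝ[X]) = C 4 * uR := by rw [four_eq]
          rw [h2, Polynomial.map_mul, huR, map_int_real, Polynomial.map_C]
          simp
        rw [Polynomial.map_sub, Polynomial.map_sub, e0]
        simp only [rv, ev, Polynomial.eval_sub, Polynomial.eval_mul, Polynomial.eval_C]
      rw [e1, hhe b hb]
      simp [htaudef]
  obtain ⟨f₂, hf₂⟩ := hdvd
  have huD : u.degree < (D : WithBot ℕ) := lt_of_lt_of_le hu (by exact_mod_cast hMD)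
  refine ⟨u, h, f₂, huD, hhdeg, ?_, ?_, ?_⟩
  · -- degree of the quotient
    have htot : (f - 4 * uR - h).degree < (D : WithBot ℕ) := by
      have h1 : (4 * uR : ℝ[X]).degree < (D : WithBot ℕ) := by
        rw [four_eq, Polynomial.degree_C_mul (by norm_num)]
        exact lt_of_le_of_lt (Polynomial.degree_map_le) huD
      refine lt_of_le_of_lt (Polynomial.degree_sub_le _ _) (max_lt ?_ hhdeg)
      exact lt_of_le_of_lt (Polynomial.degree_sub_le _ _) (max_lt hf h1)
    by_cases h0 : f₂ = 0
    · rw [h0, Polynomial.degree_zero]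
      exact WithBot.bot_lt_coe _
    · rw [hf₂, Polynomial.degree_eq_natDegree (mul_ne_zero hQR0 h0),
        Polynomial.natDegree_mul hQR0 h0, hQRdeg] at htot
      rw [Polynomial.degree_eq_natDegree h0]
      have h3 : P.natDegree + f₂.natDegree < D := by exact_mod_cast htot
      have h4 : f₂.natDegree < D - P.natDegree := by omega
      exact_mod_cast h4
  · rw [← hf₂]; ring
  · intro z hz
    have key : ∀ z ∈ K, ‖ev W z‖ * ‖hC.eval z‖
        ≤ c₁ * c₂ * P.natDegree * Real.exp A * T z := by
      intro z hz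
      have hTz := hT0 z hz
      calc ‖ev W z‖ * ‖hC.eval z‖ ≤ ‖ev W z‖ * ∑ a ∈ R, ‖tau a‖ * (‖(L a).eval z‖ *
            ‖(g a).eval z‖) := by
            apply mul_le_mul_of_nonneg_left _ (norm_nonneg _)
            rw [hhC, Polynomial.eval_finsetSum]
            refine (norm_sum_le _ _).trans (le_of_eq ?_)
            apply Finset.sum_congr rfl
            intro a _
            rw [Polynomial.eval_mul, Polynomial.eval_mul, Polynomial.eval_C, norm_mul, norm_mul]
        _ = ∑ a ∈ R, ‖tau a‖ * ‖(L a).eval z‖ * (‖ev W z‖ * ‖(g a).eval z‖) := by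
            rw [Finset.mul_sum]
            apply Finset.sum_congr rfl
            intro a _
            ring
        _ ≤ ∑ a ∈ R, (c₁ * Real.exp (A - S a)) * c₂ * (Real.exp (S a) * T z) := by
            apply Finset.sum_le_sum
            intro a ha
            apply mul_le_mul _ ((hg a ha).2.2 z hz) (by positivity) (by positivity)
            exact mul_le_mul (htau a ha) (hLb a ha z hz) (norm_nonneg _) (by positivity)
        _ = ∑ a ∈ R, c₁ * c₂ * Real.exp A * T z := by
            apply Finset.sum_congr rfl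
            intro a _
            have : Real.exp (A - S a) * Real.exp (S a) = Real.exp A := by
              rw [← Real.exp_add]; congr 1; ring
            rw [← this]; ring
        _ = c₁ * c₂ * P.natDegree * Real.exp A * T z := by
            rw [Finset.sum_const, hcard, nsmul_eq_mul]; ring
    have k1 := key z hz
    have k2 := key (conj z) (hKc z hz)
    rw [hT z, ev_conj, RCLike.norm_conj] at k2
    have e1 : ‖rv h z‖ ≤ 1 / 2 * (‖hC.eval z‖ + ‖hC.eval (conj z)‖) := by
      rw [hh, reP_eval D hC hCdeg, norm_mul]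
      have : ‖(1 / 2 : ℂ)‖ = 1 / 2 := by norm_num
      rw [this]
      apply mul_le_mul_of_nonneg_left _ (by norm_num)
      refine (norm_add_le _ _).trans (le_of_eq ?_)
      rw [RCLike.norm_conj]
    have e2 : ‖ev W z‖ * ‖rv h z‖ ≤ ‖ev W z‖ * (1 / 2 * (‖hC.eval z‖ + ‖hC.eval (conj z)‖)) :=
      mul_le_mul_of_nonneg_left e1 (norm_nonneg _)
    nlinarith

end Pool.Agent.Work.MP_ce2d68_du.h42
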